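import Pool.Agent.H.MP_848d58_co.Defs
import Pool.Agent.H.MP_4d0e60_an.C

namespace Pool.Agent.H.MP_848d58_co

open Finset Pool.Agent.Lib.helper28.Zp
open scoped Pointwise

variable {G : Type} [Group G]

@[simp] theorem smul_fst {W : Type} (g : G) (x : Pt G W) : (g • x).1 = g * x.1 := rfl

@[simp] theorem smul_snd {W : Type} (g : G) (x : Pt G W) : (g • x).2 = x.2 := rfl

section push

variable {U V : Type} [Fintype U] [DecidableEq V]

def push (β : U → V) (x : U → ℝ) : V → ℝ := fun v => ∑ u, if β u = v then x u else 0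

theorem push_cont (β : U → V) : Continuous (push β) :=
  continuous_pi fun v => continuous_finsetSum _ fun u _ => by split_ifs <;> fun_prop

theorem push_nonneg (β : U → V) {x : U → ℝ} (h : ∀ u, 0 ≤ x u) (v : V) : 0 ≤ push β x v :=
  sum_nonneg fun u _ => by split_ifs; exacts [h u, le_rfl]

theorem push_sum [Fintype V] (β : U → V) (x : U → ℝ) : ∑ v, push β x v = ∑ u, x u := by
  unfold push
  rw [sum_comm]
  simp

theorem push_ne {β : U → V} {x : U → ℝ} {v : V} (h : push β x v ≠ 0) : ∃ u, β u = v ∧ x u ≠ 0 := by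
  obtain ⟨u, -, hu⟩ := exists_ne_zero_of_sum_ne_zero h
  by_cases e : β u = v
  · exact ⟨u, e, by simpa [e] using hu⟩
  · simp [e] at hu

theorem push_eqv {β : U → V} (e : U ≃ U) {e' : V → V} (he : Function.Injective e')
    (h : ∀ u, β (e u) = e' (β u)) {x y : U → ℝ} (hy : ∀ u, y (e u) = x u) (v : V) :
    push β y (e' v) = push β x v := by
  unfold push
  rw [← Equiv.sum_comp e]
  simp only [h, hy, he.eq_iff]

theorem push_mem [Fintype V] {β : U → V} {K' : Set (Finset U)} {K : Set (Finset V)}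
    (h : ∀ σ' ∈ K', ∃ σ ∈ K, ∀ u ∈ σ', β u ∈ σ) {x : U → ℝ} (hx : x ∈ Geo K') :
    push β x ∈ Geo K := by
  obtain ⟨h0, h1, σ', hσ, h2⟩ := hx
  obtain ⟨σ, h3, h4⟩ := h σ' hσ
  refine ⟨push_nonneg β h0, (push_sum β x).trans h1, σ, h3, fun v hv => ?_⟩
  obtain ⟨u, rfl, hu⟩ := push_ne hv
  exact h4 u (h2 u hu)

end push

theorem IndLe.pull [Fintype G] {U V : Type} [Fintype U] [Fintype V] [MulAction G U]
    [MulAction G V] {K' : Set (Finset U)} {K : Set (Finset V)} (β : U → V)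
    (hβ : ∀ (g : G) u, β (g • u) = g • β u) (h : ∀ σ' ∈ K', ∃ σ ∈ K, ∀ u ∈ σ', β u ∈ σ) {k : ℕ}
    (hk : IndLe G K k) : IndLe G K' k := by
  classical
  obtain ⟨f, hf⟩ := hk
  refine ⟨f.comp ⟨fun x => ⟨push β x, push_mem h x.2⟩,
    ((push_cont β).comp continuous_subtype_val).subtype_mk _⟩, fun g x y hy => hf g _ _ ?_⟩
  exact push_eqv (MulAction.toPerm g) (MulAction.injective g) (hβ g) hy

theorem eqv_choice {P Y : Type} [MulAction G P] [MulAction G Y] [Nonempty Y] {A : Set P}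
    (hA : ∀ (g : G), ∀ p ∈ A, g • p ∈ A) (fr : ∀ (g : G), ∀ p ∈ A, g • p = p → g = 1)
    (R : P → Y → Prop) (hR : ∀ (g : G) p y, R p y → R (g • p) (g • y)) (ex : ∀ p ∈ A, ∃ y, R p y) :
    ∃ β : P → Y, (∀ p ∈ A, R p (β p)) ∧ ∀ (g : G), ∀ p ∈ A, β (g • p) = g • β p := by
  let rep : P → P := fun p => (Quotient.mk (MulAction.orbitRel G P) p).out
  have h1 : ∀ p, ∃ g : G, g • rep p = p := fun p =>
    MulAction.orbitRel_apply.1 ((MulAction.orbitRel G P).symm (Quotient.mk_out p))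
  choose γ hγ using h1
  have h2 : ∀ (g : G) p, rep (g • p) = rep p := fun g p => congrArg Quotient.out
    (Quotient.sound (MulAction.orbitRel_apply.2 (MulAction.mem_orbit p g)))
  have h3 : ∀ p ∈ A, rep p ∈ A := fun p hp => by
    have := hA (γ p)⁻¹ p hp
    rwa [show (γ p)⁻¹ • p = rep p from inv_smul_eq_iff.2 (hγ p).symm] at this
  choose! y hy using ex
  refine ⟨fun p => γ p • y (rep p), fun p hp => ?_, fun g p hp => ?_⟩
  · have := hR (γ p) _ _ (hy _ (h3 p hp))
    rwa [hγ] at this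
  · have e := hγ (g • p)
    rw [h2] at e
    have : (g * γ p)⁻¹ * γ (g • p) = 1 := fr _ _ (h3 p hp) (by
      rw [mul_smul, e, inv_smul_eq_iff, mul_smul, hγ])
    simp only [h2, smul_smul, inv_mul_eq_one.1 this]

theorem exists_pi [Fintype G] [Nontrivial G] : ∃ (p : ℕ) (g : G) (π : G → ZMod p), p.Prime ∧
    orderOf g = p ∧ ∀ h, π (g * h) = π h + 1 := by
  obtain ⟨p, hp, hd⟩ := Nat.exists_prime_and_dvd (Fintype.one_lt_card (α := G)).ne'
  have : Fact p.Prime := ⟨hp⟩
  obtain ⟨g, hg⟩ := exists_prime_orderOf_dvd_card p hd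
  let rep : G → G := fun h => (Quotient.mk (MulAction.orbitRel (Subgroup.zpowers g) G) h).out
  have h1 : ∀ h, ∃ k : ℤ, g ^ k * rep h = h := fun h => by
    obtain ⟨⟨_, k, rfl⟩, e⟩ := MulAction.orbitRel_apply.1
      ((MulAction.orbitRel (Subgroup.zpowers g) G).symm (Quotient.mk_out h))
    exact ⟨k, e⟩
  choose k hk using h1
  have h2 : ∀ h, rep (g * h) = rep h := fun h => congrArg Quotient.out (Quotient.sound
    (MulAction.orbitRel_apply.2 (MulAction.mem_orbit h (⟨g, Subgroup.mem_zpowers g⟩ :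
      Subgroup.zpowers g))))
  refine ⟨p, g, fun h => (k h : ZMod p), hp, hg, fun h => ?_⟩
  have e := hk (g * h)
  rw [h2] at e
  have e2 : g ^ k (g * h) = g ^ (1 + k h) := by
    rw [zpow_add, zpow_one]
    exact mul_right_cancel (e.trans (by rw [mul_assoc, hk]))
  rw [zpow_eq_zpow_iff_modEq, hg, ← ZMod.intCast_eq_intCast_iff] at e2
  simp only [e2]
  push_cast
  ring

theorem dold_G [Fintype G] [Nontrivial G] {m k : ℕ} (h : IndLe G (EK G m) k) : m ≤ k := by
  classical
  obtain ⟨p, g, π, hp, hg, hπ⟩ := exists_pi (G := G)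
  have : Fact p.Prime := ⟨hp⟩
  obtain ⟨f, hf⟩ := h
  let α : Fin (m + 1) × ZMod p → Pt G (Fin (m + 1)) := fun z => (g ^ z.2.val, z.1)
  let β : Pt G (Fin (k + 1)) → Fin (k + 1) × ZMod p := fun q => (q.2, π q.1)
  have hα : ∀ x : S m p m, push α x ∈ Geo (EK G m) := by
    intro x
    refine ⟨push_nonneg α x.2.1, (push_sum α _).trans x.2.2.1,
      univ.filter fun v => push α x v ≠ 0, ⟨?_, fun a ha b hb e => ?_⟩, fun v hv => by simpa using hv⟩
    · obtain ⟨v, -, hv⟩ := exists_ne_zero_of_sum_ne_zero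
        (((push_sum α _).trans x.2.2.1).trans_ne one_ne_zero)
      exact ⟨v, by simpa using hv⟩
    · obtain ⟨⟨i, c⟩, rfl, h1⟩ := push_ne (mem_filter.1 ha).2
      obtain ⟨⟨i', c'⟩, rfl, h2⟩ := push_ne (mem_filter.1 hb).2
      obtain rfl : i = i' := e
      obtain rfl : c = c' := by_contra fun e => mul_ne_zero h1 h2 (x.2.2.2.1 i c c' e)
      rfl
  refine MP_4d0e60_an.dold hp.one_lt (fun x => push β (f ⟨_, hα x⟩))
    ((push_cont β).comp (continuous_subtype_val.comp (f.continuous.comp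
      (((push_cont α).comp continuous_subtype_val).subtype_mk _)))) (fun x => ?_) fun x y hy => ?_
  · obtain ⟨h0, h1, σ, hσ, h2⟩ := (f ⟨_, hα x⟩).2
    refine ⟨push_nonneg β h0, (push_sum β _).trans h1, fun i c c' hc => ?_,
      fun j _ hj => absurd j.2 (by omega)⟩
    by_contra e
    obtain ⟨u, e1, hu⟩ := push_ne (left_ne_zero_of_mul e)
    obtain ⟨v, e2, hv⟩ := push_ne (right_ne_zero_of_mul e)
    have := hσ.2 u (h2 u hu) v (h2 v hv) ((congrArg Prod.fst e1).trans (congrArg Prod.fst e2).symm)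
    exact hc (congrArg Prod.snd (e1.symm.trans (this ▸ e2)))
  · have e1 := hf g ⟨_, hα x⟩ ⟨_, hα y⟩ (push_eqv (β := α) (shE m p).symm
      (MulAction.injective (β := Pt G (Fin (m + 1))) g) (fun z => Prod.ext (by
        change g ^ (z.2 + 1).val = g * g ^ z.2.val
        rw [← pow_succ', pow_eq_pow_iff_modEq, hg, ZMod.val_add, ZMod.val_one]
        exact Nat.mod_modEq _ _) rfl) fun z => by
      rw [hy]; change x.1 (z.1, z.2 + 1 - 1) = _; simp)
    funext z
    have := push_eqv (β := β) (MulAction.toPerm g) (shE k p).symm.injective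
      (fun q => Prod.ext rfl (hπ q.1)) e1 (shE k p z)
    rw [Equiv.symm_apply_apply] at this
    exact this

end Pool.Agent.H.MP_848d58_co
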