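import Pool.Agent.H.MP_848d58_co.A

namespace Pool.Agent.H.MP_848d58_co

open Finset
open scoped Pointwise

variable {G : Type} [Group G] [DecidableEq G]

def Cx {W : Type} (g : G) (c : W → W → ℤ) (F : Set (Finset W)) : Set (Finset (Pt G W)) :=
  {τ | τ.Nonempty ∧ ∃ σ ∈ F, (∀ x ∈ τ, x.2 ∈ σ) ∧ ∀ x ∈ τ, ∀ y ∈ τ, y.1 = x.1 * g ^ c x.2 y.2}

def Coc {W : Type} (c : W → W → ℤ) (F : Set (Finset W)) : Prop :=
  ∀ σ ∈ F, ∀ u ∈ σ, ∀ v ∈ σ, ∀ w ∈ σ, c u v + c v w = c u w

theorem Cx_smul {W : Type} [DecidableEq W] {g : G} {c : W → W → ℤ} {F : Set (Finset W)} (h : G)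
    {τ : Finset (Pt G W)} (hτ : τ ∈ Cx g c F) : h • τ ∈ Cx g c F := by
  obtain ⟨h1, σ, h2, h3, h4⟩ := hτ
  refine ⟨h1.smul_finset, σ, h2, fun x' hx' => ?_, fun x' hx' y' hy' => ?_⟩
  · obtain ⟨x, hx, rfl⟩ := mem_smul_finset.1 hx'
    exact h3 x hx
  · obtain ⟨x, hx, rfl⟩ := mem_smul_finset.1 hx'
    obtain ⟨y, hy, rfl⟩ := mem_smul_finset.1 hy'
    simp only [smul_fst, smul_snd, h4 x hx y hy, mul_assoc]

omit [DecidableEq G] in
theorem Cx_down {W : Type} {g : G} {c : W → W → ℤ} {F : Set (Finset W)}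
    {τ ρ : Finset (Pt G W)} (hτ : τ ∈ Cx g c F) (h : ρ ⊆ τ) (hρ : ρ.Nonempty) : ρ ∈ Cx g c F :=
  let ⟨_, σ, h2, h3, h4⟩ := hτ
  ⟨hρ, σ, h2, fun x hx => h3 x (h hx), fun x hx y hy => h4 x (h hx) y (h hy)⟩

def sg {M : ℕ} (t t' : Fin M) : ℤ := if t < t' then 1 else if t' < t then -1 else 0

theorem system (g : G) [Fintype G] (Y : Type) [Fintype Y] (n m j : ℕ) :
    ∃ (W : Type) (_ : Fintype W) (_ : DecidableEq W) (c : W → W → ℤ) (F : Set (Finset W))
      (e : Fin (m + 1) ↪ W), Coc c F ∧ (∀ σ ∈ F, ∀ i, e i ∉ σ) ∧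
      ∀ ψ : Finset (Pt G W) → Y × Fin (n + 1),
        (∀ τ ∈ Cx g c F, (ψ (g • τ)).2 = (ψ τ).2 ∧ (ψ (g • τ)).1 ≠ (ψ τ).1) →
        (∀ τ ∈ Cx g c F, ∀ ρ ∈ Cx g c F, ρ ⊆ τ → (ψ ρ).2 = (ψ τ).2 → (ψ ρ).1 = (ψ τ).1) →
        ∃ τ ∈ Cx g c F, (∀ x ∈ τ, Commute x.1 g) ∧ ∃ S : Finset (Fin (n + 1)), j ≤ S.card ∧
          ∀ l ∈ S, ∃ ρ ∈ Cx g c F, ρ ⊆ τ ∧ (ψ ρ).2 = l := by
  induction j with
  | zero =>
    refine ⟨Option (Fin (m + 1)), inferInstance, inferInstance, fun _ _ => 0, {{none}},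
      Function.Embedding.some, fun _ _ _ _ _ _ _ _ => rfl, by simp, fun ψ _ _ =>
      ⟨{((1, none) : G × Option (Fin (m + 1)))}, ⟨singleton_nonempty _, _, rfl, ?_, ?_⟩, ?_, ∅,
        le_rfl, by simp⟩⟩
    · intro x hx; rw [mem_singleton.1 hx]; simp
    · intro x hx y hy; rw [mem_singleton.1 hx, mem_singleton.1 hy]; simp
    · intro x hx; rw [mem_singleton.1 hx]; exact Commute.one_left g
  | succ j ih =>
    classical
    obtain ⟨W, _, _, c, F, e, hc, he, ih⟩ := ih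
    let M := Fintype.card (Finset (Pt G W) → Y × Fin (n + 1)) + 1
    let c' : W × Fin M → W × Fin M → ℤ := fun a b => c a.1 b.1 + sg a.2 b.2
    let F' : Set (Finset (W × Fin M)) := {s | ∃ σ ∈ F, ∃ t t', t < t' ∧ s = σ ×ˢ {t, t'}}
    refine ⟨W × Fin M, inferInstance, inferInstance, c', F',
      ⟨fun i => (e i, 0), fun a b h => e.injective (congrArg Prod.fst h)⟩, ?_, ?_,
      fun ψ h1 h2 => ?_⟩
    · rintro _ ⟨σ, hσ, t, t', h, rfl⟩ u hu v hv w hw
      simp only [mem_product, mem_insert, mem_singleton] at hu hv hw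
      have := hc σ hσ _ hu.1 _ hv.1 _ hw.1
      have h' := h.not_gt
      rcases hu.2 with a | a <;> rcases hv.2 with b | b <;> rcases hw.2 with d | d <;>
        simp only [c', sg, a, b, d, h, h', lt_irrefl, if_true, if_false] <;> linarith
    · rintro _ ⟨σ, hσ, t, t', h, rfl⟩ i hi
      exact he σ hσ i (mem_product.1 hi).1
    let ι : Fin M → Pt G W → Pt G (W × Fin M) := fun t x => (x.1, x.2, t)
    obtain ⟨t, t', hlt, hψ⟩ : ∃ t t' : Fin M, t < t' ∧
        ∀ τ, ψ (image (ι t) τ) = ψ (image (ι t') τ) := by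
      obtain ⟨t, t', hne, h⟩ := Fintype.exists_ne_map_eq_of_card_lt
        (fun (t : Fin M) (τ : Finset (Pt G W)) => ψ (image (ι t) τ)) (by simp [M])
      rcases lt_or_gt_of_ne hne with h' | h'
      exacts [⟨t, t', h', congrFun h⟩, ⟨t', t, h', congrFun h.symm⟩]
    have mem : ∀ s, s = t ∨ s = t' → ∀ τ ∈ Cx g c F, image (ι s) τ ∈ Cx g c' F' := by
      rintro s hs τ ⟨a1, σ, a2, a3, a4⟩
      refine ⟨a1.image _, _, ⟨σ, a2, t, t', hlt, rfl⟩, forall_mem_image.2 fun x hx => ?_,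
        forall_mem_image.2 fun x hx => forall_mem_image.2 fun y hy => ?_⟩
      · exact mem_product.2 ⟨a3 x hx, by simpa using hs⟩
      · simpa [ι, c', sg] using a4 x hx y hy
    have sm : ∀ s (τ : Finset (Pt G W)), image (ι s) (g • τ) = g • image (ι s) τ := fun s τ => by
      simp only [smul_finset_def, image_image]; rfl
    obtain ⟨τ, hτ, hcm, S, hS, hl⟩ := ih (fun τ => ψ (image (ι t) τ))
      (fun τ hτ => by simpa only [sm] using h1 _ (mem t (Or.inl rfl) τ hτ))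
      fun τ hτ ρ hρ h => h2 _ (mem t (Or.inl rfl) τ hτ) _ (mem t (Or.inl rfl) ρ hρ)
        (image_subset_image h)
    have hτ' : image (ι t) τ ∪ image (ι t') (g • τ) ∈ Cx g c' F' := by
      obtain ⟨a1, σ, a2, a3, a4⟩ := hτ
      have h' := hlt.not_gt
      refine ⟨(a1.image _).mono subset_union_left, _, ⟨σ, a2, t, t', hlt, rfl⟩, ?_, ?_⟩
      · simp only [forall_mem_union, forall_mem_image, smul_finset_def]
        exact ⟨fun x hx => mem_product.2 ⟨a3 x hx, by simp [ι]⟩,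
          fun x hx => mem_product.2 ⟨a3 x hx, by simp [ι]⟩⟩
      · simp only [forall_mem_union, forall_mem_image, smul_finset_def]
        refine ⟨fun x hx => ⟨fun y hy => ?_, fun y hy => ?_⟩,
          fun x hx => ⟨fun y hy => ?_, fun y hy => ?_⟩⟩ <;>
          simp only [ι, c', sg, smul_fst, smul_snd, hlt, h', lt_irrefl, if_true, if_false,
            a4 x hx y hy, add_zero]
        · rw [add_comm, zpow_add, zpow_one, ← mul_assoc, ← mul_assoc, (hcm x hx).eq]
        · rw [← (hcm x hx).eq, add_comm, zpow_add, mul_assoc, zpow_neg_one, mul_inv_cancel_left]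
        · rw [mul_assoc]
    refine ⟨_, hτ', ?_, insert (ψ (image (ι t) τ ∪ image (ι t') (g • τ))).2 S, ?_, ?_⟩
    · simp only [forall_mem_union, forall_mem_image, smul_finset_def]
      exact ⟨fun x hx => hcm x hx, fun x hx => (Commute.refl g).mul_left (hcm x hx)⟩
    · rw [card_insert_of_notMem]
      · omega
      intro hm
      obtain ⟨ρ, hρ, hsub, e1⟩ := hl _ hm
      have b1 := h1 _ (mem t (Or.inl rfl) ρ hρ)
      rw [← sm, hψ] at b1
      exact b1.2 ((h2 _ hτ' _ (mem t' (Or.inr rfl) _ (Cx_smul g hρ))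
        ((image_subset_image (smul_finset_subset_smul_finset hsub)).trans subset_union_right)
        (b1.1.trans e1)).trans (h2 _ hτ' _ (mem t (Or.inl rfl) ρ hρ)
        ((image_subset_image hsub).trans subset_union_left) e1).symm)
    · refine forall_mem_insert _ _ _ |>.2 ⟨⟨_, hτ', Subset.rfl, rfl⟩, fun l hm => ?_⟩
      obtain ⟨ρ, hρ, hsub, e1⟩ := hl _ hm
      exact ⟨_, mem t (Or.inl rfl) ρ hρ, (image_subset_image hsub).trans subset_union_left, e1⟩

/-- the copy of `E_m G` over the spare points -/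
def Ex (G : Type) {W : Type} {m : ℕ} (e : Fin (m + 1) ↪ W) : Set (Finset (Pt G W)) :=
  {τ | τ.Nonempty ∧ (∀ x ∈ τ, ∃ i, e i = x.2) ∧ ∀ x ∈ τ, ∀ y ∈ τ, x.2 = y.2 → x = y}

open MP_4d0e60_an (cl cl_cont cl_hi cl_lo cl_mono)

noncomputable def tent (z : ℝ) : ℝ := cl (2 * z + 1) - cl (2 * z)

theorem tent_nonneg (z : ℝ) : 0 ≤ tent z := sub_nonneg.2 (cl_mono (by linarith))

theorem tent_ne {z : ℝ} (h : tent z ≠ 0) : |z| < 1 / 2 := by
  by_contra h'
  rcases le_abs.1 (not_lt.1 h') with e | e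
  · exact h (by rw [tent, cl_hi (by linarith), cl_hi (by linarith), sub_self])
  · exact h (by rw [tent, cl_lo (by linarith), cl_lo (by linarith), sub_self])

theorem tent_sum {θ : ℝ} {N : ℕ} (h : |θ| ≤ N) :
    ∑ k ∈ range (2 * N + 1), ∑ i : Fin 2, tent (θ - ((k : ℤ) - N : ℤ) - (i : ℕ) / 2) = 1 := by
  have := abs_le.1 h
  rw [sum_congr rfl (g := fun k : ℕ => cl (2 * θ + 2 * N + 1 - 2 * k) -
    cl (2 * θ + 2 * N + 1 - 2 * (k + 1 : ℕ))) fun k _ => by
      simp only [Fin.sum_univ_two, tent]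
      push_cast
      simp only [Fin.val_zero, Fin.val_one, Nat.cast_zero, Nat.cast_one]
      ring_nf, sum_range_sub' (fun k : ℕ => cl (2 * θ + 2 * N + 1 - 2 * k)),
    cl_hi (by push_cast; linarith), cl_lo (by push_cast; linarith), sub_zero]

omit [DecidableEq G] in
theorem indLe [Fintype G] {W : Type} [Fintype W] [DecidableEq W] (g : G) {c : W → W → ℤ}
    {F : Set (Finset W)} {m : ℕ} (hm : 1 ≤ m) (e : Fin (m + 1) ↪ W) (hc : Coc c F)
    (he : ∀ σ ∈ F, ∀ i, e i ∉ σ) : IndLe G (Cx g c F ∪ Ex G e) m := by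
  classical
  let N := ∑ u, ∑ v, (c u v).natAbs
  let T := Pt G W × Option (Fin 2 × Fin (2 * N + 1))
  let kk : Fin (2 * N + 1) → ℤ := fun k => ((k : ℕ) : ℤ) - N
  let β : T → Pt G (Fin (m + 1)) := fun z => match z.2 with
    | none => (z.1.1, Function.invFun e z.1.2)
    | some a => (z.1.1 * g ^ kk a.2, a.1.castLE (by omega))
  let θ : (Pt G W → ℝ) → Pt G W → ℝ := fun x u => ∑ v, x v * c u.2 v.2
  let X : (Pt G W → ℝ) → T → ℝ := fun x z => x z.1 * match z.2 with
    | none => if ∃ i, e i = z.1.2 then 1 else 0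
    | some a => if ∃ i, e i = z.1.2 then 0 else tent (θ x z.1 - kk a.2 - (a.1 : ℕ) / 2)
  have Xc : Continuous X := continuous_pi fun ⟨u, a⟩ => by
    have := cl_cont
    rcases a with _ | a <;> simp only [X, θ, tent] <;> split_ifs <;> fun_prop
  have mem : ∀ x ∈ Geo (Cx g c F ∪ Ex G e), push β (X x) ∈ Geo (EK G m) := by
    rintro x ⟨h0, h1, τ, hτ, h2⟩
    have X0 : ∀ z, 0 ≤ X x z := fun ⟨u, a⟩ => mul_nonneg (h0 u) (by
      have := tent_nonneg
      rcases a with _ | a <;> dsimp only <;> split_ifs <;> simp [this])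
    have X1 : ∑ v, push β (X x) v = 1 := by
      rw [push_sum, ← h1, Fintype.sum_prod_type]
      refine sum_congr rfl fun u _ => ?_
      simp only [X, Fintype.sum_option, ← mul_sum]
      split_ifs
      · simp
      rw [zero_add, Fintype.sum_prod_type_right, Fin.sum_univ_eq_sum_range (fun k : ℕ =>
        ∑ i : Fin 2, tent (θ x u - ((k : ℤ) - N : ℤ) - (i : ℕ) / 2)), tent_sum, mul_one]
      refine (abs_sum_le_sum_abs _ _).trans ((sum_le_sum (g := fun v => x v * N)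
        fun v _ => ?_).trans (by rw [← sum_mul, h1, one_mul]))
      rw [abs_mul, abs_of_nonneg (h0 v)]
      refine mul_le_mul_of_nonneg_left ?_ (h0 v)
      have : (c u.2 v.2).natAbs ≤ N := (single_le_sum (f := fun v => (c u.2 v).natAbs)
        (fun _ _ => Nat.zero_le _) (mem_univ v.2)).trans (single_le_sum
          (f := fun u => ∑ v, (c u v).natAbs) (fun _ _ => Nat.zero_le _) (mem_univ u.2))
      rw [← Int.cast_abs, Int.abs_eq_natAbs, Int.cast_natCast]
      exact_mod_cast this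
    refine ⟨push_nonneg β X0, X1, univ.filter fun v => push β (X x) v ≠ 0,
      ⟨?_, fun a' ha' b' hb' hab => ?_⟩, fun v hv => by simpa using hv⟩
    · obtain ⟨v, -, hv⟩ := exists_ne_zero_of_sum_ne_zero (X1.trans_ne one_ne_zero)
      exact ⟨v, by simpa using hv⟩
    obtain ⟨⟨u, a⟩, rfl, ha⟩ := push_ne (mem_filter.1 ha').2
    obtain ⟨⟨v, b⟩, rfl, hb⟩ := push_ne (mem_filter.1 hb').2
    have hu := h2 u (left_ne_zero_of_mul ha)
    have hv := h2 v (left_ne_zero_of_mul hb)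
    replace ha := right_ne_zero_of_mul ha
    replace hb := right_ne_zero_of_mul hb
    rcases hτ with ⟨-, σ, a2, a3, a4⟩ | ⟨-, a2, a3⟩
    · have nu : ¬ ∃ i, e i = u.2 := fun ⟨i, hi⟩ => he σ a2 i (hi ▸ a3 u hu)
      have nv : ¬ ∃ i, e i = v.2 := fun ⟨i, hi⟩ => he σ a2 i (hi ▸ a3 v hv)
      rcases a with _ | a
      · simp [nu] at ha
      rcases b with _ | b
      · simp [nv] at hb
      simp only [nu, nv, if_false] at ha hb
      have e1 : a.1 = b.1 := Fin.castLE_injective (by omega) hab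
      have e2 : θ x u = c u.2 v.2 + θ x v := by
        simp only [θ]
        rw [← one_mul (c u.2 v.2 : ℝ), ← h1, sum_mul, ← sum_add_distrib]
        refine sum_congr rfl fun w _ => ?_
        by_cases hw : x w = 0
        · simp [hw]
        · rw [← hc σ a2 _ (a3 u hu) _ (a3 v hv) _ (a3 w (h2 w hw))]; push_cast; ring
      have e3 := abs_lt.1 (tent_ne ha)
      have e4 := abs_lt.1 (tent_ne hb)
      rw [e1, e2] at e3
      have e5 : kk a.2 < c u.2 v.2 + kk b.2 + 1 := by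
        have : (kk a.2 : ℝ) < c u.2 v.2 + kk b.2 + 1 := by linarith [e3.1, e4.2]
        exact_mod_cast this
      have e6 : c u.2 v.2 + kk b.2 < kk a.2 + 1 := by
        have : (c u.2 v.2 + kk b.2 : ℝ) < kk a.2 + 1 := by linarith [e3.2, e4.1]
        exact_mod_cast this
      refine Prod.ext ?_ hab
      simp only [β, a4 u hu v hv, mul_assoc, ← zpow_add]
      rw [show kk a.2 = c u.2 v.2 + kk b.2 by omega]
    · rcases a with _ | a
      swap
      · simp [a2 u hu] at ha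
      rcases b with _ | b
      swap
      · simp [a2 v hv] at hb
      obtain ⟨i, hi⟩ := a2 u hu
      obtain ⟨j, hj⟩ := a2 v hv
      simp only [β, ← hi, ← hj, Function.leftInverse_invFun e.injective _] at hab
      rw [a3 u hu v hv (by rw [← hi, ← hj, hab])]
  refine ⟨⟨fun x => ⟨_, mem x x.2⟩, ((push_cont β).comp (Xc.comp continuous_subtype_val)).subtype_mk
    _⟩, fun h x y hy => push_eqv (β := β) ((MulAction.toPerm h).prodCongr (Equiv.refl _))
      (MulAction.injective h) (fun ⟨u, a⟩ => ?_) fun ⟨u, a⟩ => ?_⟩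
  · rcases a with _ | a
    · rfl
    · exact Prod.ext (mul_assoc _ _ _) rfl
  · have : θ y (h • u) = θ x u := by
      simp only [θ]
      rw [← Equiv.sum_comp (MulAction.toPerm h)]
      simp only [MulAction.toPerm_apply, hy, smul_snd]
    change X y (h • u, a) = _
    simp only [X, hy, this, smul_snd]

end Pool.Agent.H.MP_848d58_co
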