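import Pool.Agent.H.MP_848d58_co.B

namespace Pool.Agent.H.MP_848d58_co

open Finset
open scoped Pointwise

variable {G : Type} [Group G]

def pt {W : Type} (a : G) (w : W) : Pt G W := (a, w)

instance {k : ℕ} : Nonempty (Pt G (Fin (k + 1))) := ⟨pt 1 0⟩

def Lab (G : Type) [Group G] (r : ℕ → ℕ → Prop) {P : Type} [PartialOrder P] [MulAction G P]
    (A : Set P) (n : ℕ) : Prop :=
  ∃ ψ : P → Pt G (Fin (n + 1)), (∀ g : G, ∀ p ∈ A, ψ (g • p) = g • ψ p) ∧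
    ∀ p ∈ A, ∀ q ∈ A, p ≤ q → ψ p = ψ q ∨ r (ψ p).2 (ψ q).2

section lab

variable {r : ℕ → ℕ → Prop} {P : Type} [PartialOrder P] [MulAction G P]

theorem Lab.step (hr : ∀ i j, i < j → r i j) {A B : Set P} (hA : ∀ g : G, ∀ p ∈ A, g • p ∈ A)
    (hB : ∀ g : G, ∀ p ∈ B, g • p ∈ B) (fr : ∀ g : G, ∀ p ∈ B, g • p = p → g = 1)
    (mx : ∀ p ∈ B, p ∉ A → ∀ q ∈ B, p ≤ q → p = q) {n : ℕ} (h : Lab G r A n) :
    Lab G r B (n + 1) := by
  classical
  obtain ⟨ψ, h1, h2⟩ := h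
  obtain ⟨s, -, hs⟩ := eqv_choice (Y := G) hB fr (fun _ _ => True) (fun _ _ _ _ => trivial)
    fun _ _ => ⟨1, trivial⟩
  refine ⟨fun p => if p ∈ A then pt (ψ p).1 (ψ p).2.castSucc else pt (s p) (Fin.last _),
    fun g p hp => ?_, fun p hp q hq hpq => ?_⟩
  · by_cases e : p ∈ A
    · simp only [e, hA g p e, if_true, h1 g p e]; rfl
    · have : g • p ∉ A := fun e' => e (by simpa using hA g⁻¹ _ e')
      simp only [e, this, if_false, hs g p hp]; rfl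
  · by_cases e : p ∈ A
    · by_cases e' : q ∈ A
      · simp only [e, e', if_true]
        exact (h2 p e q e' hpq).imp (fun h => by rw [h]) id
      · simp only [e, e', if_true, if_false]
        exact Or.inr (hr _ _ (ψ p).2.2)
    · rw [mx p hp e q hq hpq]; exact Or.inl rfl

theorem Lab.mono (hr : ∀ i j, i < j → r i j) {A : Set P} (hA : ∀ g : G, ∀ p ∈ A, g • p ∈ A)
    (fr : ∀ g : G, ∀ p ∈ A, g • p = p → g = 1) {n k : ℕ} (h : Lab G r A n) (hk : n ≤ k) :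
    Lab G r A k := by
  induction hk with
  | refl => exact h
  | step _ ih => exact ih.step hr hA hA fr fun p hp e => absurd hp e

theorem ivt (hr : ∀ i j, i < j → r i j) (A : ℕ → Set P) (hA : ∀ d, ∀ g : G, ∀ p ∈ A d, g • p ∈ A d)
    (fr : ∀ d, ∀ g : G, ∀ p ∈ A d, g • p = p → g = 1)
    (mx : ∀ d, ∀ p ∈ A (d + 1), p ∉ A d → ∀ q ∈ A (d + 1), p ≤ q → p = q) {n D : ℕ}
    (h0 : Lab G r (A 0) n) (hD : ¬ Lab G r (A D) n) :
    ∃ d, IsLeast {k | Lab G r (A d) k} (n + 1) := by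
  induction D with
  | zero => exact absurd h0 hD
  | succ D ih =>
    by_cases h : Lab G r (A D) n
    · exact ⟨D + 1, h.step hr (hA _) (hA _) (fr _) (mx _), fun k hk => not_lt.1 fun e =>
        hD (Lab.mono hr (hA _) (fr _) hk (Nat.lt_succ_iff.1 e))⟩
    · exact ih h

theorem lab_sub (A : SubMulAction G P) {k : ℕ} :
    Lab G r (Set.univ : Set A) k ↔ Lab G r (A : Set P) k := by
  classical
  constructor
  · rintro ⟨ψ, h1, h2⟩
    refine ⟨fun p => if h : p ∈ A then ψ ⟨p, h⟩ else pt 1 0, fun g p hp => ?_,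
      fun p hp q hq h => ?_⟩
    · have hp : p ∈ A := hp
      simp only [hp, A.smul_mem g hp, dif_pos]
      exact h1 g ⟨p, hp⟩ trivial
    · have hp : p ∈ A := hp
      have hq : q ∈ A := hq
      simp only [hp, hq, dif_pos]
      exact h2 ⟨p, hp⟩ trivial ⟨q, hq⟩ trivial h
  · rintro ⟨ψ, h1, h2⟩
    exact ⟨fun p => ψ p, fun g p _ => h1 g p p.2, fun p _ q _ h => h2 p p.2 q q.2 h⟩

theorem sind_iff [DecidableEq G] {k : ℕ} :
    SindLe G (Ord (Set.univ : Set P)) k ↔ Lab G (· ≠ ·) (Set.univ : Set P) k := by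
  classical
  constructor
  · rintro ⟨ψ, h1, h2⟩
    refine ⟨ψ, fun g p _ => h1 g p, fun p _ q _ h => or_iff_not_imp_right.2 fun e => ?_⟩
    refine (h2 {p, q} ⟨by simp, fun _ _ => trivial, ?_⟩).2 _ (mem_image_of_mem _ (by simp)) _
      (mem_image_of_mem _ (by simp)) (Fin.ext (not_not.1 e))
    rw [coe_pair]
    exact IsChain.pair h
  · rintro ⟨ψ, h1, h2⟩
    refine ⟨ψ, fun g p => h1 g p trivial, fun σ hσ => ⟨hσ.1.image _, forall_mem_image.2
      fun p hp => forall_mem_image.2 fun q hq e => ?_⟩⟩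
    rcases hσ.2.2.total hp hq with h | h
    · exact (h2 p trivial q trivial h).resolve_right (not_not.2 (congrArg _ e))
    · exact ((h2 q trivial p trivial h).resolve_right (not_not.2 (congrArg _ e.symm))).symm

end lab

variable {W : Type} {g : G} {c : W → W → ℤ} {F : Set (Finset W)}

theorem Cx_inj (hc : Coc c F) {τ : Finset (Pt G W)} (hτ : τ ∈ Cx g c F) :
    ∀ x ∈ τ, ∀ y ∈ τ, x.2 = y.2 → x = y := by
  obtain ⟨-, σ, a2, a3, a4⟩ := hτ
  intro x hx y hy e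
  have := hc σ a2 _ (a3 x hx) _ (a3 x hx) _ (a3 x hx)
  refine Prod.ext ?_ e
  rw [a4 x hx y hy, ← e, show c x.2 x.2 = 0 by linarith, zpow_zero, mul_one]

theorem eq_one {h : G} {x : Pt G W} (e : x = h • x) : h = 1 :=
  mul_eq_right.1 (congrArg Prod.fst e).symm

variable [DecidableEq G]

theorem free_of_inj [DecidableEq W] {τ : Finset (Pt G W)} (h0 : τ.Nonempty)
    (hτ : ∀ x ∈ τ, ∀ y ∈ τ, x.2 = y.2 → x = y) {h : G} (e : h • τ = τ) : h = 1 := by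
  obtain ⟨x, hx⟩ := h0
  exact eq_one (hτ x hx _ (e ▸ smul_mem_smul_finset hx) rfl)

theorem core [Fintype G] (g : G) (hg : g ≠ 1) {r : ℕ → ℕ → Prop} (hr : ∀ i j, i < j → r i j)
    (hr' : ∀ i j, r i j → i ≠ j) {m n : ℕ} (hmn : m < n) :
    ∃ (W : Type) (_ : Fintype W) (_ : DecidableEq W) (c : W → W → ℤ) (F : Set (Finset W))
      (e : Fin (m + 1) ↪ W), Coc c F ∧ (∀ σ ∈ F, ∀ i, e i ∉ σ) ∧
      ∀ A : Set (Finset (Pt G W)), (∀ h : G, ∀ p ∈ A, h • p ∈ A) →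
        (∀ h : G, ∀ p ∈ A, h • p = p → h = 1) → (∀ p ∈ A, ∀ x ∈ p, ∃ i, e i = x.2) →
        Lab G r A m → ∃ d, IsLeast {k | Lab G r ({τ ∈ Cx g c F | τ.card ≤ d} ∪ A) k} n := by
  obtain ⟨n, rfl⟩ : ∃ k, n = k + 1 := ⟨n - 1, by omega⟩
  obtain ⟨W, _, _, c, F, e, hc, he, H⟩ := system g G n m (n + 2)
  refine ⟨W, inferInstance, inferInstance, c, F, e, hc, he, fun A hA fr hr2 hL => ivt hr
    (fun d => {τ ∈ Cx g c F | τ.card ≤ d} ∪ A) (D := Fintype.card (Pt G W)) ?_ ?_ ?_ ?_ ?_⟩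
  · rintro d h p (hp | hp)
    · exact Or.inl ⟨Cx_smul h hp.1, (card_smul_finset h p).trans_le hp.2⟩
    · exact Or.inr (hA h p hp)
  · rintro d h p (hp | hp)
    · exact free_of_inj hp.1.1 (Cx_inj hc hp.1)
    · exact fr h p hp
  · rintro d p (hp | hp) hn q (hq | hq) hpq
    · exact eq_of_subset_of_card_le hpq (hq.2.trans (not_le.1 fun e => hn (Or.inl ⟨hp.1, e⟩)))
    · obtain ⟨⟨⟨x, hx⟩, σ, a2, a3, -⟩, -⟩ := hp
      obtain ⟨i, hi⟩ := hr2 q hq x (hpq hx)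
      exact absurd (hi ▸ a3 x hx) (he σ a2 i)
    · exact absurd (Or.inr hp) hn
    · exact absurd (Or.inr hp) hn
  · have : {τ ∈ Cx g c F | τ.card ≤ 0} = ∅ :=
      Set.eq_empty_of_forall_notMem fun τ h => h.1.1.card_pos.not_ge h.2
    simp only [this, Set.empty_union]
    exact hL.mono hr hA fr (by omega)
  · rintro ⟨ψ, h1, h2⟩
    have mem : ∀ τ ∈ Cx g c F, τ ∈ {τ ∈ Cx g c F | τ.card ≤ Fintype.card (Pt G W)} ∪ A :=
      fun τ h => Or.inl ⟨h, card_le_univ τ⟩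
    obtain ⟨-, -, -, S, hS, -⟩ := H ψ (fun τ hτ => by
      rw [h1 g τ (mem τ hτ)]
      exact ⟨rfl, fun e => hg (mul_eq_right.1 e)⟩) fun τ hτ ρ hρ h e => congrArg Prod.fst
        ((h2 ρ (mem ρ hρ) τ (mem τ hτ) h).resolve_right fun e' => hr' _ _ e' (congrArg _ e))
    have := card_le_univ S
    rw [Fintype.card_fin] at this
    omega

theorem Ex_smul [DecidableEq W] {m : ℕ} {e : Fin (m + 1) ↪ W} (h : G) {τ : Finset (Pt G W)}
    (hτ : τ ∈ Ex G e) : h • τ ∈ Ex G e := by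
  refine ⟨hτ.1.smul_finset, fun x' hx' => ?_, fun x' hx' y' hy' h' => ?_⟩
  · obtain ⟨x, hx, rfl⟩ := mem_smul_finset.1 hx'
    exact hτ.2.1 x hx
  · obtain ⟨x, hx, rfl⟩ := mem_smul_finset.1 hx'
    obtain ⟨y, hy, rfl⟩ := mem_smul_finset.1 hy'
    rw [hτ.2.2 x hx y hy h']

theorem Ex_lab [DecidableEq W] {m : ℕ} (e : Fin (m + 1) ↪ W) : Lab G (· < ·) (Ex G e) m := by
  classical
  obtain ⟨ψ, h1, h2⟩ := eqv_choice (Y := Pt G (Fin (m + 1))) (A := Ex G e) (fun h p => Ex_smul h)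
    (fun h p hp => free_of_inj hp.1 hp.2.2)
    (fun τ y => pt y.1 (e y.2) ∈ τ ∧ ∀ x ∈ τ, ∀ i, e i = x.2 → i ≤ y.2)
    (fun h τ y hy => ⟨smul_mem_smul_finset (a := h) hy.1, fun x' hx' => by
      obtain ⟨x, hx, rfl⟩ := mem_smul_finset.1 hx'
      exact hy.2 x hx⟩) (fun τ hτ => by
      obtain ⟨x, hx, hm⟩ := exists_max_image τ (fun x => Function.invFun e x.2) hτ.1
      obtain ⟨i, hi⟩ := hτ.2.1 x hx
      refine ⟨(x.1, i), by rwa [hi], fun y hy j hj => ?_⟩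
      have := hm y hy
      rwa [← hi, ← hj, Function.leftInverse_invFun e.injective,
        Function.leftInverse_invFun e.injective] at this)
  refine ⟨ψ, h2, fun p hp q hq h => ?_⟩
  refine ((h1 q hq).2 _ (h (h1 p hp).1) _ rfl).eq_or_lt.imp_left fun e' => Prod.ext ?_ e'
  exact (congrArg Prod.fst (hq.2.2 _ (h (h1 p hp).1) _ (h1 q hq).1 (congrArg e e')) :)

theorem cx_facts [Fintype G] [Nontrivial G] [Fintype W] [DecidableEq W] {m : ℕ} (hm : 1 ≤ m)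
    {e : Fin (m + 1) ↪ W} (hc : Coc c F) (he : ∀ σ ∈ F, ∀ i, e i ∉ σ) (d : ℕ) :
    FreeCx G ({τ ∈ Cx g c F | τ.card ≤ d} ∪ Ex G e) ∧
      IsLeast {k | IndLe G ({τ ∈ Cx g c F | τ.card ≤ d} ∪ Ex G e) k} m := by
  refine ⟨⟨?_, ?_, ?_, ?_⟩, ?_, ?_⟩
  · rintro σ (h | h)
    exacts [h.1.1, h.1]
  · rintro σ (h | h) τ hτ h0
    · exact Or.inl ⟨Cx_down h.1 hτ h0, (card_le_card hτ).trans h.2⟩
    · exact Or.inr ⟨h0, fun x hx => h.2.1 x (hτ hx), fun x hx y hy => h.2.2 x (hτ hx) y (hτ hy)⟩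
  · rintro h p (hp | hp)
    · exact Or.inl ⟨Cx_smul h hp.1, (card_smul_finset h p).trans_le hp.2⟩
    · exact Or.inr (Ex_smul h hp)
  · rintro h x ⟨-, h1, σ, hσ, h2⟩ hx
    obtain ⟨v, -, hv⟩ := exists_ne_zero_of_sum_ne_zero (h1.trans_ne one_ne_zero)
    have := h2 _ ((hx v).trans_ne hv)
    rcases hσ with hσ | hσ
    exacts [eq_one (Cx_inj hc hσ.1 v (h2 v hv) _ this rfl), eq_one (hσ.2.2 v (h2 v hv) _ this rfl)]
  · exact (indLe g hm e hc he).pull id (fun _ _ => rfl) fun σ hσ =>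
      ⟨σ, hσ.imp_left fun h => h.1, fun _ h => h⟩
  · intro k hk
    refine dold_G (IndLe.pull (fun x => pt x.1 (e x.2)) (fun _ _ => rfl)
      (fun σ hσ => ⟨_, Or.inr ⟨hσ.1.image _, forall_mem_image.2 fun x _ => ⟨_, rfl⟩,
        forall_mem_image.2 fun x hx => forall_mem_image.2 fun y hy h => ?_⟩,
        fun u hu => mem_image_of_mem _ hu⟩) hk)
    rw [hσ.2 x hx y hy (e.injective h)]

theorem complexes [Fintype G] [Nontrivial G] {m n : ℕ} (hm : 1 ≤ m) (hmn : m < n) :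
    ∃ (V : Type) (_ : Fintype V) (_ : DecidableEq V) (_ : MulAction G V) (K : Set (Finset V)),
      FreeCx G K ∧ IsLeast {k | IndLe G K k} m ∧ IsLeast {k | XindLe G K k} n := by
  obtain ⟨g, hg⟩ := exists_ne (1 : G)
  obtain ⟨W, _, _, c, F, e, hc, he, H⟩ := core g hg (r := (· < ·)) (fun _ _ h => h)
    (fun _ _ h => h.ne) hmn
  obtain ⟨d, hd⟩ := H _ (fun h p => Ex_smul h) (fun h p hp => free_of_inj hp.1 hp.2.2)
    (fun p hp => hp.2.1) (Ex_lab e)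
  exact ⟨_, inferInstance, inferInstance, inferInstance, _, (cx_facts hm hc he d).1,
    (cx_facts hm hc he d).2, hd⟩

section posets

variable [Fintype G] [Fintype W] [DecidableEq W] {m : ℕ} (e : Fin (m + 1) ↪ W)

def qq (y : Pt G (Fin (m + 1))) : Finset (Pt G W) :=
  univ.filter fun x => x = pt y.1 (e y.2) ∨ ∃ j < y.2, e j = x.2

omit [Group G] in
theorem mem_qq {y : Pt G (Fin (m + 1))} {x : Pt G W} :
    x ∈ qq e y ↔ x = pt y.1 (e y.2) ∨ ∃ j < y.2, e j = x.2 := by simp [qq]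

theorem qq_smul (h : G) (y : Pt G (Fin (m + 1))) : h • qq e y = qq e (h • y) := by
  ext x
  rw [← inv_smul_mem_iff, mem_qq, mem_qq, inv_smul_eq_iff]
  rfl

omit [Group G] in
theorem qq_le {y z : Pt G (Fin (m + 1))} : qq e y ⊆ qq e z ↔ y = z ∨ y.2 < z.2 := by
  constructor
  · intro h
    rcases (mem_qq e).1 (h ((mem_qq e).2 (Or.inl rfl))) with h | ⟨j, h1, h2⟩
    · exact Or.inl (Prod.ext (congrArg Prod.fst h :) (e.injective (congrArg Prod.snd h)))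
    · exact Or.inr (e.injective h2 ▸ h1)
  · rintro (rfl | h) x hx
    · exact hx
    · rcases (mem_qq e).1 hx with rfl | ⟨j, h1, h2⟩
      exacts [(mem_qq e).2 (Or.inr ⟨_, h, rfl⟩), (mem_qq e).2 (Or.inr ⟨j, h1.trans h, h2⟩)]

omit [Group G] in
theorem qq_inj {y z : Pt G (Fin (m + 1))} (h : qq e y = qq e z) : y = z :=
  ((qq_le e).1 h.le).elim id fun h1 => ((qq_le e).1 h.ge).elim Eq.symm fun h2 =>
    absurd h1 h2.not_gt

end posets

theorem posets [Fintype G] [Nontrivial G] {r : ℕ → ℕ → Prop} (hr : ∀ i j, i < j → r i j)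
    (hr' : ∀ i j, r i j → i ≠ j) {m n : ℕ} (hm : 1 ≤ m) (hmn : m < n) :
    ∃ (P : Type) (_ : Fintype P) (_ : PartialOrder P) (_ : MulAction G P), FreePoset G P ∧
      IsLeast {k | IndLe G (Ord (Set.univ : Set P)) k} m ∧
      IsLeast {k | Lab G r (Set.univ : Set P) k} n := by
  classical
  obtain ⟨g, hg⟩ := exists_ne (1 : G)
  obtain ⟨W, _, _, c, F, e, hc, he, H⟩ := core g hg hr hr' hmn
  have q1 : ∀ h : G, ∀ p ∈ Set.range (qq (G := G) e), h • p ∈ Set.range (qq e) := by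
    rintro h _ ⟨y, rfl⟩; exact ⟨_, (qq_smul e h y).symm⟩
  have q2 : ∀ h : G, ∀ p ∈ Set.range (qq (G := G) e), h • p = p → h = 1 := by
    rintro h _ ⟨y, rfl⟩ hy; exact eq_one (qq_inj e ((qq_smul e h y).symm.trans hy)).symm
  have q3 : ∀ p ∈ Set.range (qq (G := G) e), ∀ x ∈ p, ∃ i, e i = x.2 := by
    rintro _ ⟨y, rfl⟩ x hx
    rcases (mem_qq e).1 hx with rfl | ⟨j, -, h⟩
    exacts [⟨_, rfl⟩, ⟨j, h⟩]
  obtain ⟨d, hd⟩ := H _ q1 q2 q3 ⟨Function.invFun (qq e), by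
      rintro h _ ⟨y, rfl⟩
      rw [qq_smul, Function.leftInverse_invFun fun _ _ => qq_inj e,
        Function.leftInverse_invFun fun _ _ => qq_inj e], by
      rintro _ ⟨y, rfl⟩ _ ⟨z, rfl⟩ h
      rw [Function.leftInverse_invFun fun _ _ => qq_inj e,
        Function.leftInverse_invFun fun _ _ => qq_inj e]
      exact ((qq_le e).1 h).imp_right (hr _ _)⟩
  let A : SubMulAction G (Finset (Pt G W)) :=
    ⟨{τ ∈ Cx g c F | τ.card ≤ d} ∪ Set.range (qq e), by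
      rintro h p (hp | hp)
      · exact Or.inl ⟨Cx_smul h hp.1, (card_smul_finset h p).trans_le hp.2⟩
      · exact Or.inr (q1 h p hp)⟩
  have fr : ∀ (h : G) (p : A), h • p = p → h = 1 := by
    rintro h ⟨p, hp | hp⟩ e
    exacts [free_of_inj hp.1.1 (Cx_inj hc hp.1) (congrArg Subtype.val e),
      q2 h p hp (congrArg Subtype.val e)]
  have nx : ∀ p ∈ Cx g c F, ∀ y, ¬ p ⊆ qq e y := by
    rintro p ⟨⟨x, hx⟩, σ, a2, a3, -⟩ y h
    obtain ⟨i, hi⟩ := q3 _ ⟨y, rfl⟩ x (h hx)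
    exact he σ a2 i (hi ▸ a3 x hx)
  refine ⟨A, inferInstance, inferInstance, inferInstance,
    ⟨fun h p q hpq => smul_finset_subset_smul_finset hpq, fr⟩, ⟨?_, fun k hk => ?_⟩,
    by simp only [lab_sub]; exact hd⟩
  · have : Nonempty (Pt G W) := ⟨pt 1 (e 0)⟩
    obtain ⟨β, b1, b2⟩ := eqv_choice (Y := Pt G W) (A := (Set.univ : Set A))
      (fun _ _ _ => trivial) (fun h p _ => fr h p)
      (fun p x => x ∈ p.1 ∧ ∀ y, p.1 = qq e y → x = pt y.1 (e y.2))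
      (fun h p x hx => ⟨smul_mem_smul_finset hx.1, fun y hy => by
        rw [hx.2 (h⁻¹ • y) (by rw [← qq_smul, ← hy]; exact (inv_smul_smul h p.1).symm)]
        exact Prod.ext (mul_inv_cancel_left _ _) rfl⟩) (by
      rintro ⟨p, hp | ⟨y, rfl⟩⟩ -
      · obtain ⟨x, hx⟩ := hp.1.1
        exact ⟨x, hx, fun y hy => absurd hy.le (nx p hp.1 y)⟩
      · exact ⟨_, (mem_qq e).2 (Or.inl rfl), fun z hz => by rw [qq_inj e hz]⟩)
    refine (indLe g hm e hc he).pull β (fun h p => b2 h p trivial) fun σ hσ => ?_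
    obtain ⟨τ, hτ, hm⟩ := exists_max_image σ (fun p => p.1.card) hσ.1
    have top : ∀ u ∈ σ, u.1 ⊆ τ.1 := fun u hu => (hσ.2.2.total hu hτ).elim id fun h =>
      (eq_of_subset_of_card_le h (hm u hu)).ge
    rcases τ.2 with h | ⟨y, h⟩
    · exact ⟨τ, Or.inl h.1, fun u hu => top u hu (b1 u trivial).1⟩
    have hq : ∀ u ∈ σ, ∃ z, u.1 = qq e z := fun u hu => u.2.elim
      (fun h' => absurd (h ▸ top u hu) (nx _ h'.1 y)) fun ⟨z, hz⟩ => ⟨z, hz.symm⟩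
    refine ⟨σ.image β, Or.inr ⟨hσ.1.image _, forall_mem_image.2 fun u hu =>
      q3 _ ⟨y, h⟩ _ (top u hu (b1 u trivial).1), forall_mem_image.2 fun u hu =>
        forall_mem_image.2 fun v hv huv => ?_⟩, fun u hu => mem_image_of_mem _ hu⟩
    obtain ⟨z, hz⟩ := hq u hu
    obtain ⟨z', hz'⟩ := hq v hv
    rw [(b1 u trivial).2 z hz, (b1 v trivial).2 z' hz'] at huv ⊢
    have e1 : z.2 = z'.2 := e.injective huv
    have : z = z' := (hσ.2.2.total hu hv).elim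
      (fun h => ((qq_le e).1 (hz ▸ hz' ▸ h)).resolve_right e1.not_lt)
      fun h => (((qq_le e).1 (hz ▸ hz' ▸ h)).resolve_right e1.not_gt).symm
    rw [this]
  · let β : Pt G (Fin (m + 1)) → A := fun y => ⟨qq e y, Or.inr ⟨y, rfl⟩⟩
    refine dold_G (IndLe.pull β (fun h y => Subtype.ext (qq_smul e h y).symm) (fun σ hσ =>
      ⟨σ.image β, And.intro (hσ.1.image _) ⟨fun _ _ => trivial, ?_⟩,
        fun u hu => mem_image_of_mem _ hu⟩) hk)
    rw [coe_image]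
    rintro _ ⟨x, hx, rfl⟩ _ ⟨y, hy, rfl⟩ -
    rcases lt_trichotomy x.2 y.2 with h | h | h
    exacts [Or.inl ((qq_le e).2 (Or.inr h)), Or.inl ((qq_le e).2 (Or.inl (hσ.2 x hx y hy h))),
      Or.inr ((qq_le e).2 (Or.inr h))]

end Pool.Agent.H.MP_848d58_co
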