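import Pool.Agent.H.MP_848d58_co.C

namespace Pool.Agent.H.MP_848d58_co

open Finset
open scoped Pointwise

variable {G : Type} [Group G]

/-- a bounded invariant integral cocycle lifting an equivariant labelling by `ZMod p` -/
def BC (g : G) (p : ℕ) {V : Type} [MulAction G V] (K : Set (Finset V)) (B : ℕ) : Prop :=
  ∃ (s : V → ZMod p) (ω : V → V → ℤ), ∀ σ ∈ K, ∀ u ∈ σ, s (g • u) = s u + 1 ∧ ∀ v ∈ σ,
    ω (g • u) (g • v) = ω u v ∧ |ω u v| ≤ B ∧ (ω u v : ZMod p) = s v - s u ∧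
      ∀ w ∈ σ, ω u v + ω v w = ω u w

theorem bc_base {g : G} {p : ℕ} [NeZero p] {π : G → ZMod p} (hπ : ∀ h, π (g * h) = π h + 1)
    {P : Type} [PartialOrder P] [MulAction G P] {A : Set P} {n : ℕ} (hn : n ≤ 1)
    (h : XindLe G A n) : BC g p (Ord A) p := by
  obtain ⟨ψ, h1, h2⟩ := h
  let s : P → ZMod p := fun u => π (ψ u).1
  let l : P → ℕ := fun u => (ψ u).2
  refine ⟨s, fun u v => if l u = l v then 0 else if l u = 0 then (s v - s u).val
    else -(s u - s v).val, fun σ hσ u hu => ?_⟩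
  have a1 : ∀ u ∈ σ, s (g • u) = s u + 1 ∧ l (g • u) = l u := fun u hu => by
    simp only [s, l, h1 g u (hσ.2.1 u hu), smul_fst, smul_snd, hπ, and_self]
  have a2 : ∀ u ∈ σ, ∀ v ∈ σ, l u = l v → s u = s v := fun u hu v hv e => by
    have : ψ u = ψ v := (hσ.2.2.total hu hv).elim
      (fun h => (h2 u (hσ.2.1 u hu) v (hσ.2.1 v hv) h).resolve_right fun h => h.ne (Fin.ext e))
      fun h => ((h2 v (hσ.2.1 v hv) u (hσ.2.1 u hu) h).resolve_right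
        fun h => h.ne (Fin.ext e.symm)).symm
    simp only [s, this]
  have a3 : ∀ u, l u = 0 ∨ l u = 1 := fun u => by have := (ψ u).2.2; simp only [l]; omega
  refine ⟨(a1 u hu).1, fun v hv => ⟨?_, ?_, ?_, fun w hw => ?_⟩⟩
  · simp only [a1 u hu, a1 v hv, add_sub_add_right_eq_sub]
  · have := ZMod.val_lt (s v - s u)
    have := ZMod.val_lt (s u - s v)
    dsimp only
    split_ifs <;> rw [abs_le] <;> omega
  · dsimp only
    split_ifs with e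
    · simp [a2 u hu v hv e]
    · simp
    · simp
  · have b1 := a2 u hu v hv
    have b2 := a2 v hv w hw
    have b3 := a2 u hu w hw
    rcases a3 u with x | x <;> rcases a3 v with y | y <;> rcases a3 w with z | z <;>
      simp only [x, y, z, forall_const, zero_ne_one, one_ne_zero] at b1 b2 b3 <;>
      simp [x, y, z, b1, b2, b3]

theorem bc_down {g : G} {p : ℕ} {V : Type} [DecidableEq V] [MulAction G V] {K : Set (Finset V)}
    (hK : ∀ σ ∈ K, ∀ τ ⊆ σ, τ.Nonempty → τ ∈ K) {B : ℕ} (h : BC g p (Ord K) B) :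
    BC g p K (2 * B) := by
  obtain ⟨s, ω, h⟩ := h
  refine ⟨fun u => s {u}, fun u v => ω {u} {u, v} + ω {u, v} {v}, fun σ hσ => ?_⟩
  have ch : ∀ u ∈ σ, ∀ v ∈ σ, ∀ a, a = u ∨ a = v → ({{a}, {u, v}, σ} : Finset _) ∈ Ord K := by
    intro u hu v hv a ha
    have s1 : ({a} : Finset V) ⊆ {u, v} := by simpa using ha
    have s2 : ({u, v} : Finset V) ⊆ σ := insert_subset hu (by simpa using hv)
    refine ⟨by simp, ?_, ?_⟩
    · simp only [forall_mem_insert, mem_singleton, forall_eq]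
      exact ⟨hK σ hσ _ (s1.trans s2) (by simp), hK σ hσ _ s2 (by simp), hσ⟩
    · rw [coe_insert, coe_pair]
      refine (IsChain.pair s2).insert ?_
      rintro _ (rfl | rfl) -
      exacts [Or.inl s1, Or.inl (s1.trans s2)]
  have key : ∀ u ∈ σ, ∀ v ∈ σ, ω {u} {u, v} + ω {u, v} {v} = ω {u} σ - ω {v} σ := by
    intro u hu v hv
    have e1 := ((h _ (ch u hu v hv u (Or.inl rfl)) {u} (by simp)).2 {u, v} (by simp)).2.2.2 σ
      (by simp)
    have e2 := ((h _ (ch u hu v hv v (Or.inr rfl)) {u, v} (by simp)).2 {v} (by simp)).2.2.2 σ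
      (by simp)
    linarith
  intro u hu
  refine ⟨by simpa using (h _ (ch u hu u hu u (Or.inl rfl)) {u} (by simp)).1, fun v hv => ?_⟩
  have e1 := (h _ (ch u hu v hv u (Or.inl rfl)) {u} (by simp)).2 {u, v} (by simp)
  have e2 := (h _ (ch u hu v hv v (Or.inr rfl)) {u, v} (by simp)).2 {v} (by simp)
  simp only [smul_finset_insert, smul_finset_singleton] at e1 e2
  refine ⟨by simp only [e1.1, e2.1], (abs_add_le _ _).trans ?_, ?_, fun w hw => ?_⟩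
  · push_cast; linarith [e1.2.1, e2.2.1]
  · push_cast; rw [e1.2.2.1, e2.2.2.1]; ring
  · simp only [key u hu v hv, key v hv w hw, key u hu w hw]; ring

theorem bc_sd {g : G} {p : ℕ} [NeZero p] {π : G → ZMod p} (hπ : ∀ h, π (g * h) = π h + 1)
    {n : ℕ} (hn : n ≤ 1) (r : ℕ) : ∀ (V : Type) [DecidableEq V] [MulAction G V]
      (K : Set (Finset V)), (∀ σ ∈ K, ∀ τ ⊆ σ, τ.Nonempty → τ ∈ K) → XindSdLe G n r V K →
      BC g p K (2 ^ (r + 1) * p) := by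
  induction r with
  | zero => exact fun V _ _ K hK h => bc_down hK (bc_base hπ hn h)
  | succ r ih =>
    intro V _ _ K hK h
    rw [pow_succ', mul_assoc]
    exact bc_down hK (ih _ _ (fun σ hσ τ hτ h0 => ⟨h0, fun p hp => hσ.2.1 p (hτ hp),
      hσ.2.2.mono (coe_subset.2 hτ)⟩) h)

theorem bc_lab {g : G} {p : ℕ} [Fact (1 < p)] {V : Type} [DecidableEq V] [MulAction G V]
    {K : Set (Finset V)} (h0 : ∀ σ ∈ K, σ.Nonempty) (hK : ∀ σ ∈ K, g • σ ∈ K) {B : ℕ}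
    (h : BC g p K B) : ∃ ψ : Finset V → ZMod p × Fin (B + 1),
      (∀ τ ∈ K, (ψ (g • τ)).2 = (ψ τ).2 ∧ (ψ (g • τ)).1 ≠ (ψ τ).1) ∧
      ∀ τ ∈ K, ∀ ρ ∈ K, ρ ⊆ τ → (ψ ρ).2 = (ψ τ).2 → (ψ ρ).1 = (ψ τ).1 := by
  obtain ⟨s, ω, h⟩ := h
  have z : ∀ τ ∈ K, ∀ u ∈ τ, ω u u = 0 := fun τ hτ u hu => by
    linarith [((h τ hτ u hu).2 u hu).2.2.2 u hu]
  have ex : ∀ τ ∈ K, ∃ y : ZMod p × Fin (B + 1), ∃ u ∈ τ, ∃ v ∈ τ, s u = y.1 ∧
      ω u v = (y.2 : ℕ) ∧ ∀ a ∈ τ, ∀ b ∈ τ, ω a b ≤ (y.2 : ℕ) := by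
    intro τ hτ
    obtain ⟨⟨u, v⟩, hm, hx⟩ := exists_max_image (τ ×ˢ τ) (fun z => ω z.1 z.2)
      ((h0 τ hτ).product (h0 τ hτ))
    obtain ⟨hu, hv⟩ := mem_product.1 hm
    have e1 := hx (u, u) (mem_product.2 ⟨hu, hu⟩)
    have e2 := abs_le.1 ((h τ hτ u hu).2 v hv).2.1
    simp only [z τ hτ u hu] at e1
    have e3 := Int.toNat_of_nonneg e1
    exact ⟨(s u, ⟨(ω u v).toNat, by omega⟩), u, hu, v, hv, rfl, e3.symm,
      fun a ha b hb => (hx (a, b) (mem_product.2 ⟨ha, hb⟩)).trans e3.ge⟩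
  choose! ψ hψ using ex
  have uq : ∀ τ ∈ K, ∀ u ∈ τ, ∀ v ∈ τ, ω u v = ((ψ τ).2 : ℕ) → s u = (ψ τ).1 := by
    intro τ hτ u hu v hv e
    obtain ⟨a, ha, b, hb, e1, e2, e3⟩ := hψ τ hτ
    have f1 := ((h τ hτ u hu).2 a ha).2.2
    have f2 := ((h τ hτ a ha).2 u hu).2.2.2
    have : ω u a = 0 := by
      linarith [f1.2 b hb, f1.2 u hu, f2 v hv, e3 u hu b hb, e3 a ha v hv, z τ hτ u hu]
    rw [← e1, eq_comm, ← sub_eq_zero, ← f1.1, this, Int.cast_zero]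
  refine ⟨ψ, fun τ hτ => ?_, fun τ hτ ρ hρ hs e => ?_⟩
  · obtain ⟨a, ha, b, hb, e1, e2, e3⟩ := hψ τ hτ
    obtain ⟨a', ha', b', hb', -, e5, e6⟩ := hψ _ (hK τ hτ)
    obtain ⟨u, hu, rfl⟩ := mem_smul_finset.1 ha'
    obtain ⟨v, hv, rfl⟩ := mem_smul_finset.1 hb'
    have f1 := e6 _ (smul_mem_smul_finset ha) _ (smul_mem_smul_finset hb)
    have f2 := ((h τ hτ a ha).2 b hb).1
    have f3 : ((ψ (g • τ)).2 : ℕ) = (ψ τ).2 := by
      have := e3 u hu v hv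
      have := ((h τ hτ u hu).2 v hv).1
      omega
    refine ⟨Fin.ext f3, ?_⟩
    rw [← uq _ (hK τ hτ) _ (smul_mem_smul_finset ha) _ (smul_mem_smul_finset hb)
      (by rw [f2, e2, f3]), (h τ hτ a ha).1, e1]
    simp
  · obtain ⟨a, ha, b, hb, e1, e2, -⟩ := hψ ρ hρ
    rw [← e1, uq τ hτ a (hs ha) b (hs hb) (by rw [e2, e])]

theorem sd_ex (r : ℕ) : ∀ (V : Type) [Fintype V] [DecidableEq V] [MulAction G V]
    (K : Set (Finset V)), (∀ σ ∈ K, σ.Nonempty) → (∀ g : G, ∀ σ ∈ K, g • σ ∈ K) →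
      (∀ g : G, ∀ σ ∈ K, g • σ = σ → g = 1) → ∃ n, XindSdLe G n r V K := by
  induction r with
  | zero =>
    intro V _ _ _ K _ h1 h2
    obtain ⟨s, -, hs⟩ := eqv_choice (Y := G) h1 h2 (fun _ _ => True) (fun _ _ _ _ => trivial)
      fun _ _ => ⟨1, trivial⟩
    refine ⟨Fintype.card V, fun σ => pt (s σ) ⟨σ.card, Nat.lt_succ_of_le (card_le_univ σ)⟩,
      fun g σ hσ => Prod.ext (hs g σ hσ) (Fin.ext (card_smul_finset g σ)), fun σ _ τ _ h => ?_⟩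
    exact h.eq_or_lt.imp (fun e => by rw [e]) card_lt_card
  | succ r ih =>
    intro V _ _ _ K _ h1 h2
    refine ih (Finset V) (Ord K) (fun _ h => h.1) (fun g C hC => ⟨hC.1.smul_finset,
      fun x' hx' => ?_, fun x' hx' y' hy' hne => ?_⟩) fun g C hC e => ?_
    · obtain ⟨x, hx, rfl⟩ := mem_smul_finset.1 hx'
      exact h1 g x (hC.2.1 x hx)
    · obtain ⟨x, hx, rfl⟩ := mem_smul_finset.1 hx'
      obtain ⟨y, hy, rfl⟩ := mem_smul_finset.1 hy'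
      exact (hC.2.2.total hx hy).imp smul_finset_subset_smul_finset smul_finset_subset_smul_finset
    · obtain ⟨x, hx⟩ := hC.1
      have hx' : g • x ∈ C := e ▸ smul_mem_smul_finset hx
      exact h2 g x (hC.2.1 x hx) ((hC.2.2.total hx' hx).elim
        (fun h => eq_of_subset_of_card_le h (card_smul_finset g x).ge)
        fun h => (eq_of_subset_of_card_le h (card_smul_finset g x).le).symm)

theorem subdiv [Fintype G] [DecidableEq G] [Nontrivial G] (r : ℕ) :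
    ∃ (V : Type) (_ : Fintype V) (_ : DecidableEq V) (_ : MulAction G V) (K : Set (Finset V)),
      FreeCx G K ∧ ∃ n, IsLeast {k | IndLe G K k} 1 ∧ IsLeast {k | XindSdLe G k r V K} n ∧
        1 < n := by
  classical
  obtain ⟨p, g, π, hp, -, hπ⟩ := exists_pi (G := G)
  have : Fact p.Prime := ⟨hp⟩
  obtain ⟨W, _, _, c, F, e, hc, he, H⟩ := system g (ZMod p) (2 ^ (r + 1) * p) 1
    (2 ^ (r + 1) * p + 2)
  obtain ⟨h1, h2⟩ := cx_facts (g := g) le_rfl hc he (Fintype.card (Pt G W))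
  have ex := sd_ex r _ _ h1.1 h1.2.2.1 (by
    rintro h σ (hσ | hσ)
    exacts [free_of_inj hσ.1.1 (Cx_inj hc hσ.1), free_of_inj hσ.1 hσ.2.2])
  refine ⟨_, inferInstance, inferInstance, inferInstance, _, h1, Nat.find ex, h2,
    ⟨Nat.find_spec ex, fun k hk => Nat.find_min' ex hk⟩, not_le.1 fun hn => ?_⟩
  obtain ⟨ψ, a1, a2⟩ := bc_lab h1.1 (h1.2.2.1 g) (bc_sd hπ hn r _ _ h1.2.1 (Nat.find_spec ex))
  obtain ⟨-, -, -, S, hS, -⟩ := H ψ (fun τ hτ => a1 τ (Or.inl ⟨hτ, card_le_univ τ⟩))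
    fun τ hτ ρ hρ => a2 τ (Or.inl ⟨hτ, card_le_univ τ⟩) ρ (Or.inl ⟨hρ, card_le_univ ρ⟩)
  have := card_le_univ S
  rw [Fintype.card_fin] at this
  omega

end Pool.Agent.H.MP_848d58_co
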