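import Mathlib

namespace Pool.Agent.H.MP_848d58_co

open scoped Pointwise

variable (G : Type) [Group G] [Fintype G] [DecidableEq G]

/-- `G × W` with `G` acting by left multiplication on the first coordinate -/
def Pt (G W : Type) : Type := G × W

instance {W : Type} [Fintype W] : Fintype (Pt G W) := inferInstanceAs (Fintype (G × W))

instance {W : Type} [DecidableEq W] : DecidableEq (Pt G W) := inferInstanceAs (DecidableEq (G × W))

instance {W : Type} : MulAction G (Pt G W) where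
  smul g x := (g * x.1, x.2)
  one_smul x := Prod.ext (one_mul x.1) rfl
  mul_smul a b x := Prod.ext (mul_assoc a b x.1) rfl

/-- geometric realisation, in barycentric coordinates, of a family `K` of simplices on `V` -/
def Geo {V : Type} [Fintype V] (K : Set (Finset V)) : Set (V → ℝ) :=
  {x | (∀ v, 0 ≤ x v) ∧ ∑ v, x v = 1 ∧ ∃ σ ∈ K, ∀ v, x v ≠ 0 → v ∈ σ}

/-- `K` is a simplicial complex on which `G` acts, freely on the geometric realisation -/
def FreeCx {V : Type} [Fintype V] [DecidableEq V] [MulAction G V] (K : Set (Finset V)) : Prop :=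
  (∀ σ ∈ K, σ.Nonempty) ∧ (∀ σ ∈ K, ∀ τ ⊆ σ, τ.Nonempty → τ ∈ K) ∧
    (∀ g : G, ∀ σ ∈ K, g • σ ∈ K) ∧ ∀ g : G, ∀ x ∈ Geo K, (∀ v, x (g • v) = x v) → g = 1

/-- the complex `E_k G`, the join of `k + 1` copies of `G`, i.e. the order complex of `Q_k G` -/
def EK (k : ℕ) : Set (Finset (Pt G (Fin (k + 1)))) :=
  {σ | σ.Nonempty ∧ ∀ x ∈ σ, ∀ y ∈ σ, x.2 = y.2 → x = y}

/-- there is a continuous `G`-equivariant map `|K| → E_k G` -/
def IndLe {V : Type} [Fintype V] [MulAction G V] (K : Set (Finset V)) (k : ℕ) : Prop :=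
  ∃ f : C(Geo K, Geo (EK G k)), ∀ (g : G) (x y : Geo K), (∀ v, y.1 (g • v) = x.1 v) →
    ∀ q, (f y).1 (g • q) = (f x).1 q

/-- there is a `G`-equivariant simplicial map `K → E_k G` -/
def SindLe {V : Type} [MulAction G V] (K : Set (Finset V)) (k : ℕ) : Prop :=
  ∃ ψ : V → Pt G (Fin (k + 1)), (∀ (g : G) v, ψ (g • v) = g • ψ v) ∧ ∀ σ ∈ K, σ.image ψ ∈ EK G k

/-- there is a `G`-map from the `G`-poset `A` (with the order and action of `P`) to `Q_n G` -/
def XindLe {P : Type} [PartialOrder P] [MulAction G P] (A : Set P) (n : ℕ) : Prop :=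
  ∃ ψ : P → Pt G (Fin (n + 1)), (∀ g : G, ∀ p ∈ A, ψ (g • p) = g • ψ p) ∧
    ∀ p ∈ A, ∀ q ∈ A, p ≤ q → ψ p = ψ q ∨ (ψ p).2 < (ψ q).2

/-- the order complex of the poset `A` -/
def Ord {P : Type} [PartialOrder P] (A : Set P) : Set (Finset P) :=
  {σ | σ.Nonempty ∧ (∀ p ∈ σ, p ∈ A) ∧ IsChain (· ≤ ·) (σ : Set P)}

/-- `P` is a free `G`-poset -/
def FreePoset (P : Type) [PartialOrder P] [MulAction G P] : Prop :=
  (∀ (g : G) (p q : P), p ≤ q → g • p ≤ g • q) ∧ ∀ (g : G) (p : P), g • p = p → g = 1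

/-- there is a `G`-map from the face poset of the `r`-fold barycentric subdivision of `K`
to `Q_n G` -/
def XindSdLe (n : ℕ) : (r : ℕ) → (V : Type) → [DecidableEq V] → [MulAction G V] →
    Set (Finset V) → Prop
  | 0, _, _, _, K => XindLe G K n
  | r + 1, V, _, _, K => XindSdLe n r (Finset V) (Ord K)

end Pool.Agent.H.MP_848d58_co
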